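import Pool.Agent.Helper72.FX.StK

/-!
# Module DQ: derived quotient by an element
-/

set_option autoImplicit false

namespace Pool.Agent.Helper79.FX

open Pool.Agent.Helper72.FX

section aux

variable {A : Type} [CommRing A] {I : Ideal A} {x : A}

theorem ck_kil {M : Type} [AddCommGroup M] [Module A M] (h : kil I M) :
    kil (I ⊔ Ideal.span {x}) (Ck x M) := by
  refine kil_sup ((gd_kil I).surj M (Ck x M) (Submodule.mkQ _) (Submodule.mkQ_surjective _) h) ?_
  refine kil_span fun y => ?_
  obtain ⟨z, rfl⟩ := Submodule.mkQ_surjective _ y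
  rw [← map_smul, Submodule.mkQ_apply, Submodule.Quotient.mk_eq_zero]
  exact ⟨z, rfl⟩

theorem kn_kil {M : Type} [AddCommGroup M] [Module A M] (h : kil I M) :
    kil (I ⊔ Ideal.span {x}) (Kn x M) := by
  refine kil_sup ((gd_kil I).inj (Kn x M) M (Submodule.subtype _)
    (Submodule.injective_subtype _) h) ?_
  refine kil_span fun y => ?_
  apply Subtype.ext
  exact y.2

end aux

theorem hDQ : StDQ := by
  intro hS A _ _ I x Λ _ χ
  refine ⟨{ f := fun M _ _ => χ.f (Ck x M) - χ.f (Kn x M), exact' := ?_ }, fun M _ _ => rfl⟩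
  intro M N Q _ _ _ _ _ _ i p hN hk hi he hp
  have hQk : kil I Q := (gd_kil I).surj N Q p hp hk
  have hMk : kil I M := (gd_kil I).inj M N i hi hk
  haveI : Module.Finite A N := hN
  haveI : Module.Finite A Q := Module.Finite.of_surjective p hp
  haveI : Module.Finite A M := Module.Finite.of_injective i hi
  exact hS A (kil (I ⊔ Ideal.span {x})) (gd_kil _) Λ χ M N Q M N Q i p i p
    (LinearMap.lsmul A M x) (LinearMap.lsmul A N x) (LinearMap.lsmul A Q x) hi he hp hi he hp
    (by ext y; simp) (by ext y; simp)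
    inferInstance (kn_kil hk) inferInstance (kn_kil hQk)
    inferInstance (ck_kil hMk) inferInstance (ck_kil hk)

end Pool.Agent.Helper79.FX
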