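import Pool.Agent.Helper79.FX.M_KK

/-!
# FX: the zero set of `F` is smooth
-/

set_option autoImplicit false

namespace Pool.Agent.Helper79.FX

open Pool.Agent.Helper72.FX

section nat2

variable {A B : Type} [CommRing A] [Algebra ℂ A] [CommRing B] [Algebra ℂ B] (φ : A →ₐ[ℂ] B)

theorem map_ae (p : R3) (a b t : A) : φ ((MvPolynomial.aeval ![a, b, t] : R3 →ₐ[ℂ] A) p) =
    (MvPolynomial.aeval ![φ a, φ b, φ t] : R3 →ₐ[ℂ] B) p := by
  have h : φ.comp (MvPolynomial.aeval ![a, b, t] : R3 →ₐ[ℂ] A) =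
      (MvPolynomial.aeval ![φ a, φ b, φ t] : R3 →ₐ[ℂ] B) := by
    apply MvPolynomial.algHom_ext
    intro i
    rw [AlgHom.comp_apply, MvPolynomial.aeval_X, MvPolynomial.aeval_X]
    fin_cases i <;> rfl
  exact DFunLike.congr_fun h p

theorem map_kx (a b t : A) : φ (kx a b t) = kx (φ a) (φ b) (φ t) := map_ae φ _ _ _ _

theorem map_ky (a b t : A) : φ (ky a b t) = ky (φ a) (φ b) (φ t) := map_ae φ _ _ _ _

theorem map_kz (a b t : A) : φ (kz a b t) = kz (φ a) (φ b) (φ t) := map_ae φ _ _ _ _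

theorem map_kappa (a b t : A) : φ (kappa a b t) = kappa (φ a) (φ b) (φ t) := by
  rw [kappa, kappa, map_sub, map_mul, map_mul, map_pow, map_kx, map_ky, map_kz]

theorem map_E1 (a b t r n s m : A) :
    φ (E1 a b t r n s m) = E1 (φ a) (φ b) (φ t) (φ r) (φ n) (φ s) (φ m) := by
  rw [E1, E1, map_sub, map_sub, map_mul, map_mul, map_nu]

theorem map_E2 (a b t r n s m x y z : A) : φ (E2 a b t r n s m x y z) =
    E2 (φ a) (φ b) (φ t) (φ r) (φ n) (φ s) (φ m) (φ x) (φ y) (φ z) := by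
  simp only [E2, map_add, map_sub, map_neg, map_mul, map_pow, map_kappa, map_kx, map_ky, map_kz,
    map_ofNat]

theorem map_FF (z : Fin 12 → A) : φ (FF z) = FF (fun i => φ (z i)) := by
  simp only [FF, map_add, map_sub, map_mul, map_E1, map_E2]

end nat2

/-- the polynomial ring in 12 variables -/
abbrev R12 : Type := MvPolynomial (Fin 12) ℂ

theorem D_E1 (D : Derivation ℂ R12 R12) (a b t r n s m : R12) :
    D (E1 a b t r n s m) = 2 * D b + b ^ 2 * D t + 2 * t * b * D b - 2 * a * D a -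
      (r * D n + n * D r) - (s * D m + m * D s) := by
  simp only [E1, nu, pow_two, two_mul, map_add, map_sub, Derivation.leibniz, smul_eq_mul]
  ring

theorem D_FP (D : Derivation ℂ R12 R12) (F1 F2 w1 w2 s r : R12) :
    D (F1 * w1 + F2 * w2 - (s - r)) =
      D F1 * w1 + F1 * D w1 + (D F2 * w2 + F2 * D w2) - (D s - D r) := by
  simp only [map_add, map_sub, Derivation.leibniz, smul_eq_mul]
  ring

theorem D_const (D : Derivation ℂ R12 R12) (h0 : D (MvPolynomial.X 0) = 0)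
    (h1 : D (MvPolynomial.X 1) = 0) (h2 : D (MvPolynomial.X 2) = 0) (p : R3) :
    D ((MvPolynomial.aeval ![(MvPolynomial.X 0 : R12), MvPolynomial.X 1, MvPolynomial.X 2] :
      R3 →ₐ[ℂ] R12) p) = 0 := by
  induction p using MvPolynomial.induction_on with
  | C c => rw [MvPolynomial.aeval_C, Derivation.map_algebraMap]
  | add p q hp hq => rw [map_add, map_add, hp, hq, add_zero]
  | mul_X p i hp =>
    rw [map_mul, Derivation.leibniz, hp, MvPolynomial.aeval_X, smul_zero, add_zero]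
    fin_cases i
    · change _ • D (MvPolynomial.X 0) = 0
      rw [h0, smul_zero]
    · change _ • D (MvPolynomial.X 1) = 0
      rw [h1, smul_zero]
    · change _ • D (MvPolynomial.X 2) = 0
      rw [h2, smul_zero]

theorem D_E2 (D : Derivation ℂ R12 R12) (a b t r n s m x y z : R12) (ha : D (kx a b t) = 0)
    (hb : D (ky a b t) = 0) (hc : D (kz a b t) = 0) (ht : D t = 0) (hr : D r = 0) (hn : D n = 0)
    (hs : D s = 0) (hm : D m = 0) :
    D (E2 a b t r n s m x y z) = (D y - D x) + s * (t * m * kx a b t * D y +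
      t * m * ky a b t * D x + t * r * (x * D y + y * D x) - 2 * m * kz a b t * D z -
      2 * r * z * D z) := by
  simp only [E2, kappa, pow_two, two_mul, map_add, map_sub, map_neg, Derivation.leibniz,
    smul_eq_mul, ha, hb, hc, ht, hr, hn, hs, hm]
  ring

theorem pdX (i j : Fin 12) (h : j ≠ i) :
    MvPolynomial.pderiv (R := ℂ) i (MvPolynomial.X j) = 0 := MvPolynomial.pderiv_X_of_ne h

theorem pdX1 (i : Fin 12) : MvPolynomial.pderiv (R := ℂ) i (MvPolynomial.X i) = 1 :=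
  MvPolynomial.pderiv_X_self i

theorem hTZ : TgtZ := by
  intro z hz
  by_contra hcon
  push Not at hcon
  let φ : R12 →ₐ[ℂ] ℂ := MvPolynomial.aeval z
  have hφ : ∀ p : R12, MvPolynomial.eval z p = φ p := fun p => by
    rw [← MvPolynomial.coe_aeval_eq_eval]; rfl
  have hX : ∀ i, φ (MvPolynomial.X i) = z i := fun i => MvPolynomial.aeval_X z i
  have hE1 := map_E1 φ (MvPolynomial.X 0) (MvPolynomial.X 1) (MvPolynomial.X 2)
    (MvPolynomial.X 3) (MvPolynomial.X 4) (MvPolynomial.X 5) (MvPolynomial.X 6)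
  have hE2 := map_E2 φ (MvPolynomial.X 0) (MvPolynomial.X 1) (MvPolynomial.X 2)
    (MvPolynomial.X 3) (MvPolynomial.X 4) (MvPolynomial.X 5) (MvPolynomial.X 6)
    (MvPolynomial.X 7) (MvPolynomial.X 8) (MvPolynomial.X 9)
  simp only [hX] at hE1 hE2
  have hFP : FP = E1 (MvPolynomial.X 0) (MvPolynomial.X 1) (MvPolynomial.X 2)
    (MvPolynomial.X 3) (MvPolynomial.X 4) (MvPolynomial.X 5) (MvPolynomial.X 6) *
      MvPolynomial.X 10 + E2 (MvPolynomial.X 0) (MvPolynomial.X 1) (MvPolynomial.X 2)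
    (MvPolynomial.X 3) (MvPolynomial.X 4) (MvPolynomial.X 5) (MvPolynomial.X 6)
    (MvPolynomial.X 7) (MvPolynomial.X 8) (MvPolynomial.X 9) * MvPolynomial.X 11 -
      (MvPolynomial.X 5 - MvPolynomial.X 3) := rfl
  have hD : ∀ j : Fin 12, φ (MvPolynomial.pderiv j FP) =
      φ (MvPolynomial.pderiv j (E1 (MvPolynomial.X 0) (MvPolynomial.X 1) (MvPolynomial.X 2)
    (MvPolynomial.X 3) (MvPolynomial.X 4) (MvPolynomial.X 5) (MvPolynomial.X 6))) * z 10 +
      E1 (z 0) (z 1) (z 2) (z 3) (z 4) (z 5) (z 6) *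
        φ (MvPolynomial.pderiv j (MvPolynomial.X 10)) +
      (φ (MvPolynomial.pderiv j (E2 (MvPolynomial.X 0) (MvPolynomial.X 1) (MvPolynomial.X 2)
    (MvPolynomial.X 3) (MvPolynomial.X 4) (MvPolynomial.X 5) (MvPolynomial.X 6)
    (MvPolynomial.X 7) (MvPolynomial.X 8) (MvPolynomial.X 9))) * z 11 +
      E2 (z 0) (z 1) (z 2) (z 3) (z 4) (z 5) (z 6) (z 7) (z 8) (z 9) *
        φ (MvPolynomial.pderiv j (MvPolynomial.X 11))) -
      (φ (MvPolynomial.pderiv j (MvPolynomial.X 5)) -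
        φ (MvPolynomial.pderiv j (MvPolynomial.X 3))) := by
    intro j
    rw [hFP, D_FP]
    simp only [map_add, map_sub, map_mul, hX, hE1, hE2]
  have hF0 := hz
  rw [hφ, hFP] at hF0
  simp only [map_add, map_sub, map_mul, hX, hE1, hE2] at hF0
  have hj : ∀ j, φ (MvPolynomial.pderiv j FP) = 0 := fun j => by rw [← hφ]; exact hcon j
  have hδ1 : ∀ j, φ (MvPolynomial.pderiv j (MvPolynomial.X j)) = 1 := fun j => by
    rw [pdX1, map_one]
  have hδ0 : ∀ i j : Fin 12, i ≠ j → φ (MvPolynomial.pderiv j (MvPolynomial.X i)) = 0 :=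
    fun i j h => by rw [pdX j i h, map_zero]
  have dE1 : ∀ j : Fin 12, φ (MvPolynomial.pderiv j (E1 (MvPolynomial.X 0) (MvPolynomial.X 1)
      (MvPolynomial.X 2) (MvPolynomial.X 3) (MvPolynomial.X 4) (MvPolynomial.X 5)
      (MvPolynomial.X 6))) =
      2 * φ (MvPolynomial.pderiv j (MvPolynomial.X 1)) +
      z 1 ^ 2 * φ (MvPolynomial.pderiv j (MvPolynomial.X 2)) +
      2 * z 2 * z 1 * φ (MvPolynomial.pderiv j (MvPolynomial.X 1)) -
      2 * z 0 * φ (MvPolynomial.pderiv j (MvPolynomial.X 0)) -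
      (z 3 * φ (MvPolynomial.pderiv j (MvPolynomial.X 4)) +
        z 4 * φ (MvPolynomial.pderiv j (MvPolynomial.X 3))) -
      (z 5 * φ (MvPolynomial.pderiv j (MvPolynomial.X 6)) +
        z 6 * φ (MvPolynomial.pderiv j (MvPolynomial.X 5))) := by
    intro j
    rw [D_E1]
    simp only [map_add, map_sub, map_mul, map_pow, hX, map_ofNat]
  have dE2 : ∀ j : Fin 12, 7 ≤ j → φ (MvPolynomial.pderiv j (E2 (MvPolynomial.X 0)
      (MvPolynomial.X 1) (MvPolynomial.X 2) (MvPolynomial.X 3) (MvPolynomial.X 4)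
      (MvPolynomial.X 5) (MvPolynomial.X 6) (MvPolynomial.X 7) (MvPolynomial.X 8)
      (MvPolynomial.X 9))) =
      (φ (MvPolynomial.pderiv j (MvPolynomial.X 8)) -
        φ (MvPolynomial.pderiv j (MvPolynomial.X 7))) + z 5 *
      (z 2 * z 6 * kx (z 0) (z 1) (z 2) * φ (MvPolynomial.pderiv j (MvPolynomial.X 8)) +
      z 2 * z 6 * ky (z 0) (z 1) (z 2) * φ (MvPolynomial.pderiv j (MvPolynomial.X 7)) +
      z 2 * z 3 * (z 7 * φ (MvPolynomial.pderiv j (MvPolynomial.X 8)) +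
        z 8 * φ (MvPolynomial.pderiv j (MvPolynomial.X 7))) -
      2 * z 6 * kz (z 0) (z 1) (z 2) * φ (MvPolynomial.pderiv j (MvPolynomial.X 9)) -
      2 * z 3 * z 9 * φ (MvPolynomial.pderiv j (MvPolynomial.X 9))) := by
    intro j hj7
    have hc : ∀ i : Fin 12, i < 7 → MvPolynomial.pderiv (R := ℂ) j (MvPolynomial.X i) = 0 :=
      fun i hi => pdX j i (ne_of_lt (lt_of_lt_of_le hi hj7))
    rw [D_E2 _ _ _ _ _ _ _ _ _ _ _ (D_const _ (hc 0 (by decide)) (hc 1 (by decide))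
      (hc 2 (by decide)) _) (D_const _ (hc 0 (by decide)) (hc 1 (by decide))
      (hc 2 (by decide)) _) (D_const _ (hc 0 (by decide)) (hc 1 (by decide))
      (hc 2 (by decide)) _) (hc 2 (by decide)) (hc 3 (by decide)) (hc 4 (by decide))
      (hc 5 (by decide)) (hc 6 (by decide))]
    simp only [map_add, map_sub, map_mul, hX, map_kx, map_ky, map_kz, map_ofNat]
  have q10 := hj 10
  rw [hD, dE1, dE2 10 (by decide), hδ1] at q10
  simp only [hδ0 _ _ (show (0 : Fin 12) ≠ 10 by decide), hδ0 _ _ (show (1 : Fin 12) ≠ 10 by decide),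
    hδ0 _ _ (show (2 : Fin 12) ≠ 10 by decide), hδ0 _ _ (show (3 : Fin 12) ≠ 10 by decide),
    hδ0 _ _ (show (4 : Fin 12) ≠ 10 by decide), hδ0 _ _ (show (5 : Fin 12) ≠ 10 by decide),
    hδ0 _ _ (show (6 : Fin 12) ≠ 10 by decide), hδ0 _ _ (show (7 : Fin 12) ≠ 10 by decide),
    hδ0 _ _ (show (8 : Fin 12) ≠ 10 by decide), hδ0 _ _ (show (9 : Fin 12) ≠ 10 by decide),
    hδ0 _ _ (show (11 : Fin 12) ≠ 10 by decide)] at q10
  have hz1 : E1 (z 0) (z 1) (z 2) (z 3) (z 4) (z 5) (z 6) = 0 := by linear_combination q10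
  have q11 := hj 11
  rw [hD, dE1, dE2 11 (by decide), hδ1] at q11
  simp only [hδ0 _ _ (show (0 : Fin 12) ≠ 11 by decide), hδ0 _ _ (show (1 : Fin 12) ≠ 11 by decide),
    hδ0 _ _ (show (2 : Fin 12) ≠ 11 by decide), hδ0 _ _ (show (3 : Fin 12) ≠ 11 by decide),
    hδ0 _ _ (show (4 : Fin 12) ≠ 11 by decide), hδ0 _ _ (show (5 : Fin 12) ≠ 11 by decide),
    hδ0 _ _ (show (6 : Fin 12) ≠ 11 by decide), hδ0 _ _ (show (7 : Fin 12) ≠ 11 by decide),
    hδ0 _ _ (show (8 : Fin 12) ≠ 11 by decide), hδ0 _ _ (show (9 : Fin 12) ≠ 11 by decide),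
    hδ0 _ _ (show (10 : Fin 12) ≠ 11 by decide)] at q11
  have hz2 : E2 (z 0) (z 1) (z 2) (z 3) (z 4) (z 5) (z 6) (z 7) (z 8) (z 9) = 0 := by
    linear_combination q11
  have hsr : z 5 = z 3 := by
    rw [hz1, hz2] at hF0
    linear_combination -hF0
  have hQ := hQE (z 0) (z 1) (z 2) (z 3) (z 4) (z 5) (z 6) (z 7) (z 8) (z 9)
  rw [hz1, hz2, qq] at hQ
  have hw2 : z 11 = 0 := by
    by_contra hne
    have q7 := hj 7
    rw [hD, dE1, dE2 7 (by decide), hδ1, hz1, hz2] at q7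
    simp only [hδ0 _ _ (show (0 : Fin 12) ≠ 7 by decide), hδ0 _ _ (show (1 : Fin 12) ≠ 7 by decide),
      hδ0 _ _ (show (2 : Fin 12) ≠ 7 by decide), hδ0 _ _ (show (3 : Fin 12) ≠ 7 by decide),
      hδ0 _ _ (show (4 : Fin 12) ≠ 7 by decide), hδ0 _ _ (show (5 : Fin 12) ≠ 7 by decide),
      hδ0 _ _ (show (6 : Fin 12) ≠ 7 by decide), hδ0 _ _ (show (8 : Fin 12) ≠ 7 by decide),
      hδ0 _ _ (show (9 : Fin 12) ≠ 7 by decide)] at q7
    have q8 := hj 8
    rw [hD, dE1, dE2 8 (by decide), hδ1, hz1, hz2] at q8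
    simp only [hδ0 _ _ (show (0 : Fin 12) ≠ 8 by decide), hδ0 _ _ (show (1 : Fin 12) ≠ 8 by decide),
      hδ0 _ _ (show (2 : Fin 12) ≠ 8 by decide), hδ0 _ _ (show (3 : Fin 12) ≠ 8 by decide),
      hδ0 _ _ (show (4 : Fin 12) ≠ 8 by decide), hδ0 _ _ (show (5 : Fin 12) ≠ 8 by decide),
      hδ0 _ _ (show (6 : Fin 12) ≠ 8 by decide), hδ0 _ _ (show (7 : Fin 12) ≠ 8 by decide),
      hδ0 _ _ (show (9 : Fin 12) ≠ 8 by decide)] at q8
    have q9 := hj 9
    rw [hD, dE1, dE2 9 (by decide), hδ1, hz1, hz2] at q9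
    simp only [hδ0 _ _ (show (0 : Fin 12) ≠ 9 by decide), hδ0 _ _ (show (1 : Fin 12) ≠ 9 by decide),
      hδ0 _ _ (show (2 : Fin 12) ≠ 9 by decide), hδ0 _ _ (show (3 : Fin 12) ≠ 9 by decide),
      hδ0 _ _ (show (4 : Fin 12) ≠ 9 by decide), hδ0 _ _ (show (5 : Fin 12) ≠ 9 by decide),
      hδ0 _ _ (show (6 : Fin 12) ≠ 9 by decide), hδ0 _ _ (show (7 : Fin 12) ≠ 9 by decide),
      hδ0 _ _ (show (8 : Fin 12) ≠ 9 by decide)] at q9
    have hA : z 2 * z 5 * (z 6 * ky (z 0) (z 1) (z 2) + z 3 * z 8) = 1 := by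
      have : z 11 * (z 2 * z 5 * (z 6 * ky (z 0) (z 1) (z 2) + z 3 * z 8) - 1) = 0 := by
        linear_combination q7
      rcases mul_eq_zero.1 this with h | h
      · exact absurd h hne
      · linear_combination h
    have hB : z 2 * z 5 * (z 6 * kx (z 0) (z 1) (z 2) + z 3 * z 7) = -1 := by
      have : z 11 * (z 2 * z 5 * (z 6 * kx (z 0) (z 1) (z 2) + z 3 * z 7) + 1) = 0 := by
        linear_combination q8
      rcases mul_eq_zero.1 this with h | h
      · exact absurd h hne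
      · linear_combination h
    have hC : z 5 * (z 6 * kz (z 0) (z 1) (z 2) + z 3 * z 9) = 0 := by
      have : z 11 * (2 * (z 5 * (z 6 * kz (z 0) (z 1) (z 2) + z 3 * z 9))) = 0 := by
        linear_combination -q9
      rcases mul_eq_zero.1 this with h | h
      · exact absurd h hne
      · exact (mul_eq_zero.1 h).resolve_left two_ne_zero
    have : (1 : ℂ) = 0 := by
      linear_combination (z 2 * z 5) * hQ -
        (z 2 * z 5 * (z 6 * kx (z 0) (z 1) (z 2) + z 3 * z 7) + 1) * hA +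
        z 2 * (z 5 * (z 6 * kz (z 0) (z 1) (z 2) + z 3 * z 9)) * hC
    exact one_ne_zero this
  have hlow : ∀ j : Fin 12, j ≠ 10 → j ≠ 11 →
      (2 * φ (MvPolynomial.pderiv j (MvPolynomial.X 1)) +
      z 1 ^ 2 * φ (MvPolynomial.pderiv j (MvPolynomial.X 2)) +
      2 * z 2 * z 1 * φ (MvPolynomial.pderiv j (MvPolynomial.X 1)) -
      2 * z 0 * φ (MvPolynomial.pderiv j (MvPolynomial.X 0)) -
      (z 3 * φ (MvPolynomial.pderiv j (MvPolynomial.X 4)) +
        z 4 * φ (MvPolynomial.pderiv j (MvPolynomial.X 3))) -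
      (z 5 * φ (MvPolynomial.pderiv j (MvPolynomial.X 6)) +
        z 6 * φ (MvPolynomial.pderiv j (MvPolynomial.X 5)))) * z 10 -
      (φ (MvPolynomial.pderiv j (MvPolynomial.X 5)) -
        φ (MvPolynomial.pderiv j (MvPolynomial.X 3))) = 0 := by
    intro j h10 h11
    have h := hj j
    rw [hD, dE1, hδ0 _ _ (Ne.symm h10), hδ0 _ _ (Ne.symm h11), hz1, hz2, hw2] at h
    linear_combination h
  have q5 := hlow 5 (by decide) (by decide)
  rw [hδ1, hδ0 _ _ (show (0 : Fin 12) ≠ 5 by decide), hδ0 _ _ (show (1 : Fin 12) ≠ 5 by decide),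
    hδ0 _ _ (show (2 : Fin 12) ≠ 5 by decide), hδ0 _ _ (show (3 : Fin 12) ≠ 5 by decide),
    hδ0 _ _ (show (4 : Fin 12) ≠ 5 by decide), hδ0 _ _ (show (6 : Fin 12) ≠ 5 by decide)] at q5
  have q4 := hlow 4 (by decide) (by decide)
  rw [hδ1, hδ0 _ _ (show (0 : Fin 12) ≠ 4 by decide), hδ0 _ _ (show (1 : Fin 12) ≠ 4 by decide),
    hδ0 _ _ (show (2 : Fin 12) ≠ 4 by decide), hδ0 _ _ (show (3 : Fin 12) ≠ 4 by decide),
    hδ0 _ _ (show (5 : Fin 12) ≠ 4 by decide), hδ0 _ _ (show (6 : Fin 12) ≠ 4 by decide)] at q4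
  have q0 := hlow 0 (by decide) (by decide)
  rw [hδ1, hδ0 _ _ (show (1 : Fin 12) ≠ 0 by decide), hδ0 _ _ (show (2 : Fin 12) ≠ 0 by decide),
    hδ0 _ _ (show (3 : Fin 12) ≠ 0 by decide), hδ0 _ _ (show (4 : Fin 12) ≠ 0 by decide),
    hδ0 _ _ (show (5 : Fin 12) ≠ 0 by decide), hδ0 _ _ (show (6 : Fin 12) ≠ 0 by decide)] at q0
  have q1 := hlow 1 (by decide) (by decide)
  rw [hδ1, hδ0 _ _ (show (0 : Fin 12) ≠ 1 by decide), hδ0 _ _ (show (2 : Fin 12) ≠ 1 by decide),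
    hδ0 _ _ (show (3 : Fin 12) ≠ 1 by decide), hδ0 _ _ (show (4 : Fin 12) ≠ 1 by decide),
    hδ0 _ _ (show (5 : Fin 12) ≠ 1 by decide), hδ0 _ _ (show (6 : Fin 12) ≠ 1 by decide)] at q1
  have hw1 : z 10 ≠ 0 := by
    intro h
    rw [h] at q5
    exact one_ne_zero (α := ℂ) (by linear_combination -q5)
  have hz3 : z 3 = 0 := by
    have h : z 3 * z 10 = 0 := by linear_combination -q4
    exact (mul_eq_zero.1 h).resolve_right hw1
  have hz0 : z 0 = 0 := by
    have h : (2 * z 10) * z 0 = 0 := by linear_combination -q0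
    exact (mul_eq_zero.1 h).resolve_left (mul_ne_zero two_ne_zero hw1)
  have hz12 : z 2 * z 1 = -1 := by
    have h : (2 * z 10) * (1 + z 2 * z 1) = 0 := by linear_combination q1
    have := (mul_eq_zero.1 h).resolve_left (mul_ne_zero two_ne_zero hw1)
    linear_combination this
  have hb : z 1 = 0 := by
    rw [E1, nu, hsr, hz3, hz0] at hz1
    linear_combination hz1 - z 1 * hz12
  rw [hb] at hz12
  exact one_ne_zero (α := ℂ) (by linear_combination hz12)

end Pool.Agent.Helper79.FX
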