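import Pool.Agent.Helper72.FX.Defs

/-!
# FX: existence of `K` and its first properties
-/

set_option autoImplicit false

namespace Pool.Agent.Helper79.FX

open Pool.Agent.Helper72.FX

section nat

variable {A B : Type} [CommRing A] [Algebra ℂ A] [CommRing B] [Algebra ℂ B] (φ : A →ₐ[ℂ] B)

theorem map_cc (z : ℂ) : φ (cc A z) = cc B z := φ.commutes z

theorem map_nu (a b t : A) : φ (nu a b t) = nu (φ a) (φ b) (φ t) := by
  simp [nu, map_ofNat]

theorem map_NN (w : A × A) (i k : Fin 2) : φ (NN w i k) = NN (φ w.1, φ w.2) i k := by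
  fin_cases i <;> fin_cases k <;> simp [NN]

theorem map_W1 (p q : ℂ) (a b t : A) :
    (φ (W1 p q a b t).1, φ (W1 p q a b t).2) = W1 p q (φ a) (φ b) (φ t) := by
  simp [W1, map_cc, map_ofNat]

theorem map_W0 (p q : ℂ) (a b t : A) :
    (φ (W0 p q a b t).1, φ (W0 p q a b t).2) = W0 p q (φ a) (φ b) (φ t) := by
  simp [W0, map_cc]

theorem map_LL (m : A) (p q : ℂ) (a b t : A) (i k : Fin 2) :
    φ (LL m p q a b t i k) = LL (φ m) p q (φ a) (φ b) (φ t) i k := by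
  rw [LL, LL, Matrix.mul_apply, Matrix.mul_apply, map_sum]
  refine Finset.sum_congr rfl fun l _ => ?_
  rw [map_mul, ← map_W1 φ, ← map_W0 φ]
  congr 1
  · rw [Matrix.sub_apply, Matrix.sub_apply, Matrix.smul_apply, Matrix.smul_apply, map_sub,
      smul_eq_mul, smul_eq_mul, map_mul, map_mul, map_cc, map_NN]
    congr 1
    rw [Matrix.one_apply, Matrix.one_apply]
    split_ifs <;> simp
  · rw [Matrix.add_apply, Matrix.add_apply, Matrix.smul_apply, Matrix.smul_apply, map_add,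
      smul_eq_mul, smul_eq_mul, map_mul, map_mul, map_mul, map_cc, map_NN]
    congr 1
    rw [Matrix.one_apply, Matrix.one_apply]
    split_ifs <;> simp

theorem map_gg (u a b t : A) (i k : Fin 2) :
    φ (gg u a b t i k) = gg (φ u) (φ a) (φ b) (φ t) i k := by
  rw [gg, gg, Matrix.mul_apply, Matrix.mul_apply, map_sum]
  refine Finset.sum_congr rfl fun l _ => ?_
  rw [map_mul, map_LL, map_LL, map_mul, map_cc]

theorem SS_apply (u a b t : A) (i k : Fin 2) : SS u a b t i k =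
    -(gg u a b t i 0 * gg u a b t k 0 - t * (gg u a b t i 1 * gg u a b t k 1)) := by
  simp only [SS, J0, Matrix.neg_apply, Matrix.mul_apply, Fin.sum_univ_two, Matrix.transpose_apply]
  simp
  ring

theorem map_SS (u a b t : A) (i k : Fin 2) :
    φ (SS u a b t i k) = SS (φ u) (φ a) (φ b) (φ t) i k := by
  rw [SS_apply, SS_apply, map_neg, map_sub, map_mul, map_mul, map_mul, map_gg, map_gg, map_gg,
    map_gg]

end nat

section vals

variable {B : Type} [CommRing B] [Algebra ℂ B]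

theorem cc_half : (2 : B) * cc B (1 / 2) = 1 := by
  have h : algebraMap ℂ B (2 * (1 / 2)) = 1 := by norm_num
  rw [map_mul] at h
  simpa [cc, map_ofNat] using h

theorem cc_I : cc B Complex.I * cc B Complex.I = -1 := by
  rw [cc, ← map_mul, Complex.I_mul_I, map_neg, map_one]

theorem cc_one : cc B 1 = 1 := map_one _

theorem cc_neg (z : ℂ) : cc B (-z) = -cc B z := map_neg _ _

/-- the matrix `1 + m T` -/
def TT (m P Q a b t : B) : Matrix (Fin 2) (Fin 2) B :=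
  !![1 + m * (2 * P * Q * (1 + t * b) + P ^ 2 * t * a + Q ^ 2 * a),
    m * (-(2 * P * Q * a) - P ^ 2 * (2 + t * b) - Q ^ 2 * b);
    m * (2 * P * Q * t * a + P ^ 2 * t ^ 2 * b + Q ^ 2 * (2 + t * b)),
    1 - m * (2 * P * Q * (1 + t * b) + P ^ 2 * t * a + Q ^ 2 * a)]

theorem LL_val (m : B) (p q : ℂ) (a b t : B) (hn : nu a b t = 0) :
    LL m p q a b t = TT m (cc B (p / 2)) (cc B q) a b t := by
  have h2 := cc_half (B := B)
  rw [nu] at hn
  rw [LL, W1, W0]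
  generalize cc B (1 / 2) = h at h2 ⊢
  generalize cc B (p / 2) = P
  generalize cc B q = Q
  have hD : (Q * (2 + t * b) + P * (t * a)) * (Q * b + P * a) -
      (Q * a + P * (2 + t * b)) * (Q * a + P * (t * b)) = 0 := by
    linear_combination (Q ^ 2 - t * P ^ 2) * hn
  ext i k
  fin_cases i <;> fin_cases k
  · simp [NN, TT, Matrix.mul_apply, Fin.sum_univ_two]
    linear_combination (m * (2 * P * Q * (1 + t * b) + P ^ 2 * t * a + Q ^ 2 * a)) * h2 -
      h ^ 2 * m ^ 2 * t * (Q * a + P * (2 + t * b)) * (Q * a + P * (t * b)) * hD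
  · simp [NN, TT, Matrix.mul_apply, Fin.sum_univ_two]
    linear_combination (m * (-(2 * P * Q * a) - P ^ 2 * (2 + t * b) - Q ^ 2 * b)) * h2 +
      h * m * (Q ^ 2 - t * P ^ 2) * hn +
      h ^ 2 * m ^ 2 * t * (Q * a + P * (2 + t * b)) * (Q * b + P * a) * hD
  · simp [NN, TT, Matrix.mul_apply, Fin.sum_univ_two]
    linear_combination (m * (2 * P * Q * t * a + P ^ 2 * t ^ 2 * b + Q ^ 2 * (2 + t * b))) * h2 +
      h * m * t * (Q ^ 2 - t * P ^ 2) * hn -
      h ^ 2 * m ^ 2 * t * (Q * (2 + t * b) + P * (t * a)) * (Q * a + P * (t * b)) * hD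
  · simp [NN, TT, Matrix.mul_apply, Fin.sum_univ_two]
    linear_combination -(m * (2 * P * Q * (1 + t * b) + P ^ 2 * t * a + Q ^ 2 * a)) * h2 +
      h ^ 2 * m ^ 2 * t * (Q * (2 + t * b) + P * (t * a)) * (Q * b + P * a) * hD

/-- the matrix `M₁` times a scalar -/
def MM1 (j a b t : B) : Matrix (Fin 2) (Fin 2) B :=
  !![j * (1 + t * b), -(j * a); j * (t * a), -(j * (1 + t * b))]

theorem gg_val (a b t : B) (hn : nu a b t = 0) :
    gg 1 a b t = MM1 (cc B Complex.I) a b t := by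
  rw [gg, LL_val _ _ _ _ _ _ hn, LL_val _ _ _ _ _ _ hn, mul_one, cc_neg, cc_neg, cc_one]
  have h2 := cc_half (B := B)
  have hj := cc_I (B := B)
  rw [nu] at hn
  generalize cc B (1 / 2) = h at h2 ⊢
  generalize cc B Complex.I = j at hj ⊢
  have hf : 4 * (h * h) - 1 = 0 := by linear_combination (2 * h + 1) * h2
  have hj2 : j * j = -1 := by exact hj
  ext i k
  fin_cases i <;> fin_cases k
  · simp [TT, MM1, Matrix.mul_apply, Fin.sum_univ_two]
    linear_combination (t^2*h^4*j - 4*t*h^2 - j) * hn + (-a^2*t*h^2*j - 4*a^2*t*h^2 - a^2*j +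
      2*a*t*h^3 - 2*a*h*j - 2*a*h + a + b^2*t^2*h^2*j + 4*b^2*t^2*h^2 + b^2*t*j + 4*b*t*h^2*j +
      8*b*t*h^2 + 2*b*j + 4*h^2*j + 4*h^2) * hj2 + (a*t*h^2*j - a*t*h^2 + a*j + a - 2*b*t*h*j +
      b*t*j - 2*h*j - 2*h + j - 1) * h2
  · simp [TT, MM1, Matrix.mul_apply, Fin.sum_univ_two]
    linear_combination (-2*t*h^3*j + 2*t*h^3 + 2*h*j + 2*h) * hn + (2*a^2*t*h^3 + 2*a^2*h*j +
      2*a^2*h - 2*a*h^2*j - 2*b^2*t^2*h^3 - 2*b^2*t*h*j - 2*b^2*t*h - 6*b*t*h^3 - 2*b*h*j -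
      2*b*h - b - 4*h^3) * hj2 + (2*a*h*j - a*j - b*t*h^2*j + b*t*h^2 - b*j - b - 2*h^2*j +
      2*h^2) * h2
  · simp [TT, MM1, Matrix.mul_apply, Fin.sum_univ_two]
    linear_combination (-2*t^2*h^3*j + 2*t^2*h^3 + 2*t*h*j + 2*t*h) * hn + (2*a^2*t^2*h^3 +
      2*a^2*t*h*j + 2*a^2*t*h + 2*a*t*h^2*j - 2*b^2*t^3*h^3 - 2*b^2*t^2*h*j - 2*b^2*t^2*h -
      2*b*t^2*h^3 - 6*b*t*h*j - 6*b*t*h + b*t - 4*h*j - 4*h + 2) * hj2 + (-2*a*t*h*j + a*t*j +
      b*t^2*h^2*j - b*t^2*h^2 + b*t*j + b*t + 2*j + 2) * h2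
  · simp [TT, MM1, Matrix.mul_apply, Fin.sum_univ_two]
    linear_combination (t^2*h^4*j - 4*t*h^2 - j) * hn + (-a^2*t*h^2*j - 4*a^2*t*h^2 - a^2*j -
      2*a*t*h^3 + 2*a*h*j + 2*a*h - a + b^2*t^2*h^2*j + 4*b^2*t^2*h^2 + b^2*t*j + 8*b*t*h^2 +
      2*b*j + 4*h^2) * hj2 + (-a*t*h^2*j + a*t*h^2 - a*j - a + 2*b*t*h*j - b*t*j + 2*h*j - 2*h
      - j - 1) * h2

theorem gg_zero (a b : B) :
    gg 1 a b 0 = !![cc B Complex.I, -(cc B Complex.I * a); 0, -cc B Complex.I] := by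
  rw [gg, LL, LL, W1, W1, mul_one, cc_neg, cc_neg, cc_one]
  have h2 := cc_half (B := B)
  have hj := cc_I (B := B)
  generalize cc B (1 / 2) = h at h2 ⊢
  generalize cc B Complex.I = j at hj ⊢
  ext i k
  fin_cases i <;> fin_cases k
  · simp [NN, Matrix.mul_apply, Fin.sum_univ_two]
    linear_combination (-8*a*h^3*j - 8*a*h^3 + 2*a*h + 16*h^4*j + 16*h^4) * hj + (4*a*h^2*j +
      4*a*h^2 + 2*a*h*j + 2*a*h - 8*h^3*j - 8*h^3 - 4*h^2*j - 4*h^2 + 2*h*j - 2*h + j - 1) * h2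
  · simp [NN, Matrix.mul_apply, Fin.sum_univ_two]
    linear_combination (4*a^2*h^3*j + 4*a^2*h^3 - a^2*h - 8*a*h^4*j - 16*h^5) * hj +
      (-2*a^2*h^2*j - 2*a^2*h^2 - a^2*h*j - a^2*h + 8*a*h^3*j + 4*a*h^2*j - 2*a*h*j - a*j -
      8*h^4*j + 8*h^4 - 4*h^3*j + 4*h^3) * h2
  · simp [NN, Matrix.mul_apply, Fin.sum_univ_two]
    linear_combination (-16*h^3*j - 16*h^3 + 4*h) * hj + (8*h^2*j + 8*h^2 + 4*h*j + 4*h) * h2
  · simp [NN, Matrix.mul_apply, Fin.sum_univ_two]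
    linear_combination (8*a*h^3*j + 8*a*h^3 - 2*a*h + 16*h^4) * hj + (-4*a*h^2*j - 4*a*h^2 -
      2*a*h*j - 2*a*h + 8*h^3*j - 8*h^3 + 4*h^2*j - 4*h^2 - 2*h*j - 2*h - j - 1) * h2

end vals

section main

/-- the polynomial ring in `a, b, t` -/
abbrev R3 : Type := MvPolynomial (Fin 3) ℂ

/-- `γ₁` over the polynomial ring -/
noncomputable abbrev g3 : Matrix (Fin 2) (Fin 2) R3 :=
  gg 1 (MvPolynomial.X 0) (MvPolynomial.X 1) (MvPolynomial.X 2)

theorem dvd_t : (MvPolynomial.X 2 : R3) ∣ g3 0 0 - cc R3 Complex.I ∧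
    (MvPolynomial.X 2 : R3) ∣ g3 1 0 ∧ (MvPolynomial.X 2 : R3) ∣ g3 1 1 + cc R3 Complex.I := by
  let φ := Ideal.Quotient.mkₐ ℂ (Ideal.span {(MvPolynomial.X 2 : R3)})
  have h0 : φ (MvPolynomial.X 2) = 0 :=
    Ideal.Quotient.eq_zero_iff_mem.2 (Ideal.mem_span_singleton_self _)
  have hg : ∀ i k, φ (g3 i k) = gg 1 (φ (MvPolynomial.X 0)) (φ (MvPolynomial.X 1)) 0 i k := by
    intro i k
    rw [map_gg, map_one, h0]
  have key : ∀ f : R3, φ f = 0 → (MvPolynomial.X 2 : R3) ∣ f := fun f hf =>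
    Ideal.mem_span_singleton.1 (Ideal.Quotient.eq_zero_iff_mem.1 hf)
  refine ⟨key _ ?_, key _ ?_, key _ ?_⟩
  · rw [map_sub, hg, gg_zero, map_cc]; simp
  · rw [hg, gg_zero]; simp
  · rw [map_add, hg, gg_zero, map_cc]; simp

/-- `ν` over the polynomial ring -/
noncomputable abbrev n3 : R3 := nu (MvPolynomial.X 0) (MvPolynomial.X 1) (MvPolynomial.X 2)

theorem dvd_n (i k : Fin 2) : n3 ∣ g3 i k -
    MM1 (cc R3 Complex.I) (MvPolynomial.X 0) (MvPolynomial.X 1) (MvPolynomial.X 2) i k := by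
  let φ := Ideal.Quotient.mkₐ ℂ (Ideal.span {n3})
  have h0 : φ n3 = 0 :=
    Ideal.Quotient.eq_zero_iff_mem.2 (Ideal.mem_span_singleton_self _)
  rw [map_nu] at h0
  have hg : φ (g3 i k) = MM1 (cc _ Complex.I) (φ (MvPolynomial.X 0)) (φ (MvPolynomial.X 1))
      (φ (MvPolynomial.X 2)) i k := by
    rw [map_gg, map_one, gg_val _ _ _ h0]
  have key : ∀ f : R3, φ f = 0 → n3 ∣ f := fun f hf =>
    Ideal.mem_span_singleton.1 (Ideal.Quotient.eq_zero_iff_mem.1 hf)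
  apply key
  rw [map_sub, hg]
  fin_cases i <;> fin_cases k <;> simp [MM1, map_cc]

theorem not_dvd : ¬ (MvPolynomial.X 2 : R3) ∣ n3 := by
  rintro ⟨c, hc⟩
  have h := congrArg (MvPolynomial.eval ![1, 0, 0]) hc
  simp [n3, nu] at h

/-- if `t c₁ = ν c₂` then `ν t` divides -/
theorem combine (f : R3) (k : ℕ) (h1 : n3 ∣ f) (h2 : (MvPolynomial.X 2 : R3) ^ k ∣ f) :
    (MvPolynomial.X 2 : R3) ^ k * n3 ∣ f := by
  have hp : Prime (MvPolynomial.X 2 : R3) := MvPolynomial.X_prime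
  obtain ⟨c, rfl⟩ := h1
  have h := hp.pow_dvd_of_dvd_mul_left k not_dvd h2
  rw [mul_comm]
  exact mul_dvd_mul_left _ h

theorem hKK : StKK := by
  have hj := cc_I (B := R3)
  obtain ⟨⟨d00, e00⟩, ⟨d10, e10⟩, ⟨d11, e11⟩⟩ := dvd_t
  obtain ⟨c00, f00⟩ := dvd_n 0 0
  obtain ⟨c01, f01⟩ := dvd_n 0 1
  obtain ⟨c10, f10⟩ := dvd_n 1 0
  obtain ⟨c11, f11⟩ := dvd_n 1 1
  have s00 := SS_apply (1 : R3) (MvPolynomial.X 0) (MvPolynomial.X 1) (MvPolynomial.X 2) 0 0
  have s01 := SS_apply (1 : R3) (MvPolynomial.X 0) (MvPolynomial.X 1) (MvPolynomial.X 2) 0 1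
  have s11 := SS_apply (1 : R3) (MvPolynomial.X 0) (MvPolynomial.X 1) (MvPolynomial.X 2) 1 1
  simp only [MM1, Matrix.of_apply, Matrix.cons_val', Matrix.cons_val_zero, Matrix.cons_val_one,
    Matrix.cons_val_fin_one] at f00 f01 f10 f11
  unfold g3 at e00 e10 e11 f00 f01 f10 f11
  have comb := combine
  rw [StKK]
  generalize hS00 : SS (1 : R3) (MvPolynomial.X 0) (MvPolynomial.X 1) (MvPolynomial.X 2) 0 0 = S00
    at s00 ⊢
  generalize hS01 : SS (1 : R3) (MvPolynomial.X 0) (MvPolynomial.X 1) (MvPolynomial.X 2) 0 1 = S01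
    at s01 ⊢
  generalize hS11 : SS (1 : R3) (MvPolynomial.X 0) (MvPolynomial.X 1) (MvPolynomial.X 2) 1 1 = S11
    at s11 ⊢
  generalize gg (1 : R3) (MvPolynomial.X 0) (MvPolynomial.X 1) (MvPolynomial.X 2) 0 0 = G00 at *
  generalize gg (1 : R3) (MvPolynomial.X 0) (MvPolynomial.X 1) (MvPolynomial.X 2) 0 1 = G01 at *
  generalize gg (1 : R3) (MvPolynomial.X 0) (MvPolynomial.X 1) (MvPolynomial.X 2) 1 0 = G10 at *
  generalize gg (1 : R3) (MvPolynomial.X 0) (MvPolynomial.X 1) (MvPolynomial.X 2) 1 1 = G11 at *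
  have hnu : n3 = 2 * MvPolynomial.X 1 + MvPolynomial.X 2 * MvPolynomial.X 1 ^ 2 -
    MvPolynomial.X 0 ^ 2 := rfl
  change ∃ k : Fin 3 → R3, S00 = 1 + MvPolynomial.X 2 * n3 * k 0 ∧
    S01 = MvPolynomial.X 2 * n3 * k 2 ∧ S11 = -MvPolynomial.X 2 + MvPolynomial.X 2 ^ 2 * n3 * k 1
  generalize (MvPolynomial.X 0 : R3) = a at *
  generalize (MvPolynomial.X 1 : R3) = b at *
  generalize (MvPolynomial.X 2 : R3) = t at *
  generalize n3 = n at *
  generalize cc R3 Complex.I = j at *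
  have g00 : G00 = j * (1 + t * b) + n * c00 := by linear_combination f00
  have g01 : G01 = -(j * a) + n * c01 := by linear_combination f01
  have g10 : G10 = j * (t * a) + n * c10 := by linear_combination f10
  have g11 : G11 = -(j * (1 + t * b)) + n * c11 := by linear_combination f11
  have n00 : n ∣ S00 - 1 := ⟨t - 2 * (j * (1 + t * b)) * c00 - n * c00 ^ 2 -
    2 * t * (j * a) * c01 + t * n * c01 ^ 2, by
      rw [s00, g00, g01]
      linear_combination (-(1 + t * b) ^ 2 + t * a ^ 2) * hj - t * hnu⟩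
  have n01 : n ∣ S01 := ⟨-(j * (1 + t * b) * c10 + j * (t * a) * c00 + n * c00 * c10 -
    t * (-(j * a) * c11 - j * (1 + t * b) * c01 + n * c01 * c11)), by
      rw [s01, g00, g01, g10, g11]
      ring⟩
  have n11 : n ∣ S11 + t := ⟨-t ^ 2 - 2 * (j * (t * a)) * c10 - n * c10 ^ 2 +
    t * (-(2 * (j * (1 + t * b)) * c11) + n * c11 ^ 2), by
      rw [s11, g10, g11]
      linear_combination (-(t ^ 2 * a ^ 2) + t * (1 + t * b) ^ 2) * hj + t ^ 2 * hnu⟩
  have t00 : t ^ 1 ∣ S00 - 1 := ⟨-(2 * j * d00) - t * d00 ^ 2 + G01 ^ 2, by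
      have h : G00 = j + t * d00 := by linear_combination e00
      rw [s00, h]
      linear_combination -hj⟩
  have t01 : t ^ 1 ∣ S01 := ⟨-(G00 * d10) + G01 * G11, by
      rw [s01, e10]
      ring⟩
  have t11 : t ^ 2 ∣ S11 + t := ⟨-d10 ^ 2 - 2 * j * d11 + t * d11 ^ 2, by
      have h : G11 = -j + t * d11 := by linear_combination e11
      rw [s11, h, e10]
      linear_combination t * hj⟩
  obtain ⟨k0, h0⟩ := comb _ 1 n00 t00
  obtain ⟨k2, h2⟩ := comb _ 1 n01 t01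
  obtain ⟨k1, h1⟩ := comb _ 2 n11 t11
  refine ⟨![k0, k1, k2], ?_, ?_, ?_⟩
  · simp only [Matrix.cons_val_zero]
    linear_combination h0
  · simp only [Matrix.cons_val]
    linear_combination h2
  · simp only [Matrix.cons_val_one, Matrix.cons_val_zero]
    linear_combination h1

theorem kp_spec :
    SS (1 : R3) (MvPolynomial.X 0) (MvPolynomial.X 1) (MvPolynomial.X 2) 0 0 =
      1 + MvPolynomial.X 2 * n3 * kp 0 ∧
    SS (1 : R3) (MvPolynomial.X 0) (MvPolynomial.X 1) (MvPolynomial.X 2) 0 1 =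
      MvPolynomial.X 2 * n3 * kp 2 ∧
    SS (1 : R3) (MvPolynomial.X 0) (MvPolynomial.X 1) (MvPolynomial.X 2) 1 1 =
      -MvPolynomial.X 2 + MvPolynomial.X 2 ^ 2 * n3 * kp 1 := by
  have h : kp = hKK.choose := dif_pos hKK
  rw [h]
  exact hKK.choose_spec

section gen

variable {A : Type} [CommRing A] [Algebra ℂ A]

theorem aev (a b t : A) : (MvPolynomial.aeval ![a, b, t] : R3 →ₐ[ℂ] A) (MvPolynomial.X 0) = a ∧
    (MvPolynomial.aeval ![a, b, t] : R3 →ₐ[ℂ] A) (MvPolynomial.X 1) = b ∧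
    (MvPolynomial.aeval ![a, b, t] : R3 →ₐ[ℂ] A) (MvPolynomial.X 2) = t := by
  refine ⟨?_, ?_, ?_⟩ <;> simp [MvPolynomial.aeval_X]

theorem SS1_00 (a b t : A) : SS 1 a b t 0 0 = 1 + t * nu a b t * kx a b t := by
  have h := congrArg (MvPolynomial.aeval ![a, b, t] : R3 →ₐ[ℂ] A) kp_spec.1
  obtain ⟨ha, hb, ht⟩ := aev a b t
  rw [map_SS, map_add, map_mul, map_mul, map_nu, map_one, ha, hb, ht] at h
  exact h

theorem SS1_01 (a b t : A) : SS 1 a b t 0 1 = t * nu a b t * kz a b t := by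
  have h := congrArg (MvPolynomial.aeval ![a, b, t] : R3 →ₐ[ℂ] A) kp_spec.2.1
  obtain ⟨ha, hb, ht⟩ := aev a b t
  rw [map_SS, map_mul, map_mul, map_nu, map_one, ha, hb, ht] at h
  exact h

theorem SS1_11 (a b t : A) : SS 1 a b t 1 1 = -t + t ^ 2 * nu a b t * ky a b t := by
  have h := congrArg (MvPolynomial.aeval ![a, b, t] : R3 →ₐ[ℂ] A) kp_spec.2.2
  obtain ⟨ha, hb, ht⟩ := aev a b t
  rw [map_SS, map_add, map_mul, map_mul, map_pow, map_neg, map_nu, map_one, ha, hb, ht] at h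
  exact h

theorem SS_symm (u a b t : A) : SS u a b t 1 0 = SS u a b t 0 1 := by
  rw [SS_apply, SS_apply]
  ring

theorem SS1_10 (a b t : A) : SS 1 a b t 1 0 = t * nu a b t * kz a b t := by
  rw [SS_symm, SS1_01]

theorem det_LL (m : A) (p q : ℂ) (a b t : A) : (LL m p q a b t).det = 1 := by
  rw [LL, Matrix.det_mul]
  have h1 : (1 - (cc A (1 / 2) * m) • NN (W1 p q a b t)).det = 1 := by
    simp [NN, Matrix.det_fin_two]
    ring
  have h2 : (1 + (cc A (1 / 2) * m * t) • NN (W0 p q a b t)).det = 1 := by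
    simp [NN, Matrix.det_fin_two]
    ring
  rw [h1, h2, mul_one]

theorem det_gg (u a b t : A) : (gg u a b t).det = 1 := by
  rw [gg, Matrix.det_mul, det_LL, det_LL, mul_one]

theorem det_SS (u a b t : A) :
    SS u a b t 0 0 * SS u a b t 1 1 - SS u a b t 0 1 * SS u a b t 0 1 = -t := by
  have h := det_gg u a b t
  rw [Matrix.det_fin_two] at h
  rw [SS_apply, SS_apply, SS_apply]
  linear_combination -t * (gg u a b t 0 0 * gg u a b t 1 1 - gg u a b t 0 1 * gg u a b t 1 0 + 1) * h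

end gen

theorem nu_ne : n3 ≠ 0 := fun h => not_dvd (h ▸ dvd_zero _)

theorem kk3 : kp 1 - kp 0 = -(n3 * (MvPolynomial.X 2 * kp 0 * kp 1 - kp 2 ^ 2)) := by
  have h := det_SS (1 : R3) (MvPolynomial.X 0) (MvPolynomial.X 1) (MvPolynomial.X 2)
  obtain ⟨h0, h1, h2⟩ := kp_spec
  rw [h0, h1, h2] at h
  have ht : (MvPolynomial.X 2 : R3) ^ 2 * n3 ≠ 0 :=
    mul_ne_zero (pow_ne_zero _ (MvPolynomial.X_ne_zero 2)) nu_ne
  apply mul_left_cancel₀ ht
  linear_combination h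

section gen

variable {A : Type} [CommRing A] [Algebra ℂ A]

theorem hNK (a b t : A) : ky a b t - kx a b t = -(nu a b t * kappa a b t) := by
  have h := congrArg (MvPolynomial.aeval ![a, b, t] : R3 →ₐ[ℂ] A) kk3
  obtain ⟨ha, hb, ht⟩ := aev a b t
  rw [map_sub, map_neg, map_mul, map_sub, map_mul, map_mul, map_pow, map_nu, ha, hb, ht] at h
  rw [kappa, kx, ky, kz]
  exact h

theorem hNK' (a b t : A) : ky a b t * (1 + t * nu a b t * kx a b t) =
    kx a b t + nu a b t * kz a b t ^ 2 := by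
  have h := hNK a b t
  rw [kappa] at h
  linear_combination h

/-- the quadric polynomial `q_s` -/
def qq (s t x y z : A) : A := (y - x) + s * (t * x * y - z ^ 2)

/-- `q_σ(μ K + ρ ω) = - μ κ E₁ + ρ E₂` -/
theorem hQE (a b t r n s m x y z : A) :
    qq s t (m * kx a b t + r * x) (m * ky a b t + r * y) (m * kz a b t + r * z) =
      -(m * kappa a b t * E1 a b t r n s m) + r * E2 a b t r n s m x y z := by
  have h := hNK a b t
  rw [qq, E1, E2]
  rw [kappa] at h ⊢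
  linear_combination m * h

/-- `g_u` on `{ν = 0}` -/
theorem gg1_val (a b t : A) (hn : nu a b t = 0) : gg 1 a b t = MM1 (cc A Complex.I) a b t :=
  gg_val a b t hn

end gen

end main


end Pool.Agent.Helper79.FX
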